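import Pool.Agent.Lib.MP_b5021c_nt.IfaceS4a
import Pool.Agent.Lib.MP_b5021c_nt.S.H94.A2u

/-!
# Row U_AUV: the unit of the load of type A2, norm three or four
-/

namespace Pool.Agent.B5.H94

open Pool.Agent.MP_b5021c_nt (Eis)
open Pool.Agent.MP_b5021c_nt

/-- Every element of norm four is a unit times `-2`. -/
theorem unit_of_norm_four (nu : Eis) (h : nu.norm = 4) :
    ∃ e : Eis, IsUnit e ∧ e * nu = ⟨-2, 0⟩ := by
  rw [Eis.norm_eq] at h
  obtain ⟨a, b⟩ := nu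
  simp only at h
  have hb : -2 ≤ b ∧ b ≤ 2 := by
    constructor <;> nlinarith [sq_nonneg (2 * a - b)]
  have ha : -2 ≤ a ∧ a ≤ 2 := by
    constructor <;> nlinarith [sq_nonneg (2 * b - a)]
  obtain ⟨ha1, ha2⟩ := ha
  obtain ⟨hb1, hb2⟩ := hb
  have hu : ∀ c d : ℤ, c ^ 2 - c * d + d ^ 2 = 1 → IsUnit (⟨c, d⟩ : Eis) := by
    intro c d hcd
    rw [Eis.isUnit_iff, Eis.norm_eq]
    exact hcd
  interval_cases a <;> interval_cases b <;> first
    | (exfalso; norm_num at h; done)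
    | exact ⟨⟨1, 0⟩, hu 1 0 (by norm_num), by decide⟩
    | exact ⟨⟨-1, 0⟩, hu (-1) 0 (by norm_num), by decide⟩
    | exact ⟨⟨-1, -1⟩, hu (-1) (-1) (by norm_num), by decide⟩
    | exact ⟨⟨1, 1⟩, hu 1 1 (by norm_num), by decide⟩
    | exact ⟨⟨0, 1⟩, hu 0 1 (by norm_num), by decide⟩
    | exact ⟨⟨0, -1⟩, hu 0 (-1) (by norm_num), by decide⟩

theorem sq_le_of_le {z : ℂ} {r : ℝ} (h : ‖z‖ ≤ r) : z.re ^ 2 + z.im ^ 2 ≤ r ^ 2 := by
  have h1 : ‖z‖ ^ 2 = z.re ^ 2 + z.im ^ 2 := by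
    rw [← Complex.normSq_eq_norm_sq, Complex.normSq_apply]; ring
  rw [← h1]
  exact pow_le_pow_left₀ (norm_nonneg z) h 2

theorem le_of_sq' {z : ℂ} (h : z.re ^ 2 + z.im ^ 2 ≤ (6 / 10) ^ 2) : ‖z‖ ≤ 6 / 10 := by
  have h1 : ‖z‖ ^ 2 = z.re ^ 2 + z.im ^ 2 := by
    rw [← Complex.normSq_eq_norm_sq, Complex.normSq_apply]; ring
  have h2 : ‖z‖ ^ 2 ≤ (6 / 10) ^ 2 := by rw [h1]; exact h
  exact (sq_le_sq₀ (norm_nonneg _) (by norm_num)).1 h2

/-- The real inequality. -/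
theorem key' {s p q : ℝ} (hs : s * s = 3) (hs0 : 1.7320 ≤ s) (h1 : p ^ 2 + q ^ 2 ≤ 1)
    (h2 : (s - p) ^ 2 + q ^ 2 ≤ (11 / 10) ^ 2) (hq : 0 ≤ q) :
    1 - s * p - q + p ^ 2 + q ^ 2 ≤ (6 / 10) ^ 2 := by
  have hp1 : p ≤ 1 := by nlinarith [sq_nonneg q, sq_nonneg (p - 1)]
  have hp2 : s - 11 / 10 ≤ p := by
    by_contra hcon
    push Not at hcon
    nlinarith [sq_nonneg q]
  have hq1 : q ≤ 1 := by nlinarith [sq_nonneg p, sq_nonneg (q - 1)]
  have hs1 : s ≤ 1.7321 := by nlinarith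
  -- 1 - s p + p^2 <= .3047
  have h3 : 1 - s * p + p ^ 2 ≤ 35 / 100 := by
    nlinarith [mul_nonneg (sub_nonneg.2 hp1) (sub_nonneg.2 hp2)]
  nlinarith [mul_nonneg hq (sub_nonneg.2 hq1)]

theorem u_auv : AuvS := by
  intro nu h₀ hnu hh hd
  have hs := Eis.sqrt3_sq
  have hs0 : (1.7320 : ℝ) ≤ √3 := by
    rw [Real.le_sqrt (by norm_num) (by norm_num)]; norm_num
  rcases hnu with hnu | hnu
  · have hn3 : nu.norm = 3 := by
      rw [Eis.normSq_emb] at hnu
      exact_mod_cast hnu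
    obtain ⟨e, he, hen⟩ := unit_of_norm_three nu hn3
    have hee : ‖Eis.emb e‖ = 1 := Eis.norm_emb_unit he
    set g : ℂ := Eis.emb e * h₀ with hg
    have hg1 : g.re ^ 2 + g.im ^ 2 ≤ 1 := by
      have := sq_le_of_le (z := g) (r := 1) (by
        rw [hg, norm_mul, hee, one_mul]
        exact hh)
      linarith
    have hprod : Eis.emb e * Eis.emb nu = Eis.emb (⟨-1, 1⟩ : Eis) := by
      rw [← map_mul, hen]
    have hg2 : (Eis.emb (⟨-1, 1⟩ : Eis) - g).re ^ 2 +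
        (Eis.emb (⟨-1, 1⟩ : Eis) - g).im ^ 2 ≤ (11 / 10) ^ 2 := by
      apply sq_le_of_le
      rw [← hprod, hg, ← mul_sub, norm_mul, hee, one_mul]
      exact hd
    rw [Complex.sub_re, Complex.sub_im, Eis.emb_re, Eis.emb_im] at hg2
    push_cast at hg2
    set a : ℝ := g.re with ha
    set b : ℝ := g.im with hb
    rcases le_total 0 (-(a / 2) - √3 / 2 * b) with hq | hq
    · refine ⟨he.unit, ?_, ?_⟩
      · rw [IsUnit.unit_spec, hprod]
        have h1 : (1 : ℂ) + Eis.emb (⟨-1, 1⟩ : Eis) = Eis.emb (⟨0, 1⟩ : Eis) := by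
          rw [← map_one Eis.emb, ← map_add]
          congr 1
        rw [h1]
        exact Eis.norm_emb_unit (by rw [Eis.isUnit_iff, Eis.norm_eq]; norm_num)
      · rw [IsUnit.unit_spec, ← hg]
        apply le_of_sq'
        rw [Complex.add_re, Complex.add_im, Complex.one_re, Complex.one_im]
        have h3 := key' (p := -(√3 / 2 * a) + b / 2) (q := -(a / 2) - √3 / 2 * b) hs hs0
          (by nlinarith) (by nlinarith) hq
        nlinarith
    · have hu2 : IsUnit (Eis.g6 * e) := Eis.g6_unit.mul he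
      refine ⟨hu2.unit, ?_, ?_⟩
      · rw [IsUnit.unit_spec]
        have h1 : (1 : ℂ) + Eis.emb (Eis.g6 * e) * Eis.emb nu = Eis.emb (⟨-1, -1⟩ : Eis) := by
          rw [← map_mul, mul_assoc, hen, ← map_one Eis.emb, ← map_add]
          congr 1
        rw [h1]
        exact Eis.norm_emb_unit (by rw [Eis.isUnit_iff, Eis.norm_eq]; norm_num)
      · rw [IsUnit.unit_spec, map_mul, mul_assoc, ← hg]
        apply le_of_sq'
        have hr : (Eis.emb Eis.g6 * g).re = a / 2 - √3 / 2 * b := by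
          rw [Eis.g6_re]
        have hi : (Eis.emb Eis.g6 * g).im = √3 / 2 * a + b / 2 := by
          rw [Complex.mul_im, Eis.emb_re, Eis.emb_im]
          simp only [Eis.g6]
          push_cast
          ring
        rw [Complex.add_re, Complex.add_im, Complex.one_re, Complex.one_im, hr, hi]
        have h3 := key' (p := -(√3 / 2 * a) + b / 2) (q := a / 2 + √3 / 2 * b) hs hs0
          (by nlinarith) (by nlinarith) (by linarith)
        nlinarith
  · have hn4 : nu.norm = 4 := by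
      rw [Eis.normSq_emb] at hnu
      exact_mod_cast hnu
    obtain ⟨e, he, hen⟩ := unit_of_norm_four nu hn4
    have hee : ‖Eis.emb e‖ = 1 := Eis.norm_emb_unit he
    set g : ℂ := Eis.emb e * h₀ with hg
    have hg1 : g.re ^ 2 + g.im ^ 2 ≤ 1 := by
      have := sq_le_of_le (z := g) (r := 1) (by
        rw [hg, norm_mul, hee, one_mul]
        exact hh)
      linarith
    have hprod : Eis.emb e * Eis.emb nu = Eis.emb (⟨-2, 0⟩ : Eis) := by
      rw [← map_mul, hen]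
    have hg2 : (Eis.emb (⟨-2, 0⟩ : Eis) - g).re ^ 2 +
        (Eis.emb (⟨-2, 0⟩ : Eis) - g).im ^ 2 ≤ (11 / 10) ^ 2 := by
      apply sq_le_of_le
      rw [← hprod, hg, ← mul_sub, norm_mul, hee, one_mul]
      exact hd
    rw [Complex.sub_re, Complex.sub_im, Eis.emb_re, Eis.emb_im] at hg2
    push_cast at hg2
    refine ⟨he.unit, ?_, ?_⟩
    · rw [IsUnit.unit_spec, hprod]
      have h1 : (1 : ℂ) + Eis.emb (⟨-2, 0⟩ : Eis) = Eis.emb (⟨-1, 0⟩ : Eis) := by
        rw [← map_one Eis.emb, ← map_add]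
        congr 1
      rw [h1]
      exact Eis.norm_emb_unit (by rw [Eis.isUnit_iff, Eis.norm_eq]; norm_num)
    · rw [IsUnit.unit_spec, ← hg]
      apply le_of_sq'
      rw [Complex.add_re, Complex.add_im, Complex.one_re, Complex.one_im]
      nlinarith

end Pool.Agent.B5.H94
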